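import Mathlib
import Pool.Agent.H.MP_807794_lc.A

set_option autoImplicit false

namespace Pool.Agent.Results.MP_66bd88_lc.Yes

open Set Filter Function Cardinal Order Pool.Agent.H.MP_77d395_lc Pool.Agent.H.MP_6e75db_lc
  Pool.Agent.H.MP_807794_lc

theorem result (hc : 𝔠 < (2 : Cardinal.{0}) ^ ℵ₁) (T : Type) [PartialOrder T]
    (h : T → (Ordinal.omega 1 : Ordinal.{0}).ToType) (ht : Tr T h)
    (hl : ∀ a, (h ⁻¹' {a}).Countable)
    (hA : ∀ A : Set T, IsAntichain (· ≤ ·) A → ¬ IsStationary (h '' A))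
    (C : (Ordinal.omega 1 : Ordinal.{0}).ToType → Set (Ordinal.omega 1 : Ordinal.{0}).ToType)
    (hC : Lad C) :
    ¬ ∀ f : (Ordinal.omega 1 : Ordinal.{0}).ToType → Bool, ∃ (S : Set T) (φ : T → Bool),
      S.Nonempty ∧ IsLowerSet S ∧ (∀ s ∈ S, ∀ a, ∃ t ∈ S, s ≤ t ∧ a ≤ h t) ∧
      ∀ s ∈ S, IsSuccLimit (h s) →
        {ξ ∈ C (h s) | ∃ u < s, h u = ξ ∧ φ u ≠ f (h s)}.Finite := fun hU => by
  choose S φ s0 s2 s1 s3 using hU
  choose L l1 l2 using fun S : Set T => not_isStationary_iff.1 (hA {t | t ∉ S ∧ Iio t ⊆ S}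
    fun s a t b n l => a.1 (b.2 (l.lt_of_ne n)))
  have : ∀ β, Nonempty ((ℕ → h ⁻¹' {β} → Prop × Bool) ↪ ℕ → Bool) := fun β => (le_def _ _).1 (by
    have := (hl β).to_subtype
    simp only [← power_def, ← power_mul]
    exact (power_le_power_left (by simp) (mul_le_of_le le_rfl mk_le_aleph0
      mk_le_aleph0)).trans (by
        simpa using power_le_power_right (c := ℵ₀)
          ((natCast_le_aleph0 (n := 4)).trans aleph0_le_continuum)))
  have := fun β => Classical.choice (this β)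
  let F : (I → ℕ → Bool) → ℕ → I → Bool := fun a n δ => a δ n
  refine wd hc (fun a β => this β fun n t => (t.1 ∈ S (F a n), φ (F a n) t)) (fun a =>
    {δ | IsSuccLimit δ} ∩ ⋂ n, L (S (F a n))) (fun a => lm.inter cf (.iInter_of_countable cf
      fun n => l1 _)) fun a a' δ d d' e => funext fun n => ?_
  have e : ∀ u, h u < δ → (u ∈ S (F a n) ↔ u ∈ S (F a' n)) ∧ φ (F a n) u = φ (F a' n) u :=
    fun u l => by simpa using congrFun (congrFun ((this _).injective (e _ l)) n) ⟨u, rfl⟩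
  obtain ⟨t, t1, rfl⟩ : ∃ t ∈ S (F a n), h t = δ := by
    obtain ⟨r, r1⟩ := s0 (F a n)
    obtain ⟨s, a1, -, a2⟩ := s1 (F a n) r r1 δ
    exact a2.eq_or_lt.elim (fun e => ⟨s, a1, e.symm⟩) fun l => (ht.2.2 s δ l).imp fun t g =>
      ⟨s2 _ g.1.le a1, g.2⟩
  have t2 : t ∈ S (F a' n) := by_contra fun g => disjoint_left.1 (l2 _) ⟨t, ⟨g, fun u l =>
    (e u (ht.1 l)).1.1 (s2 _ l.le t1)⟩, rfl⟩ (mem_iInter.1 d'.2 n)
  obtain ⟨c1, c2, -⟩ := hC _ d.1
  have : (C (h t)).Infinite := fun f => by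
    obtain ⟨a, a1, a2⟩ := exists_max_image _ id f (let ⟨b, c⟩ := d.1.nonempty_Iio
      (c2 b c).imp fun _ c => c.1)
    obtain ⟨b, b1, b2⟩ := (not_covBy_iff (c1 a1)).1 (d.1.2 _)
    obtain ⟨c, c3, c4⟩ := c2 b b2
    exact (a2 c c3).not_gt (b1.trans_le c4)
  obtain ⟨ξ, x1, x2⟩ := this.exists_notMem_finite ((s3 _ t t1 d.1).union (s3 _ t t2 d.1))
  obtain ⟨u, u1, u2⟩ := ht.2.2 t ξ (c1 x1)
  simp only [mem_union, mem_ofPred_eq, not_or, not_and, not_exists, not_not] at x2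
  exact (x2.1 x1 u u1 u2).symm.trans ((e u (ht.1 u1)).2.trans (x2.2 x1 u u1 u2))

end Pool.Agent.Results.MP_66bd88_lc.Yes
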